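import Pool.Agent.Helper83.EIN2.Goals

/-!
# Project EIN2 (MP_06d934_gt): MLC, two solutions in the chart `ML`
-/

set_option autoImplicit false

namespace Pool.Agent.Helper30.EIN2

open Finset Topology Filter Pool.Agent.Helper83.EIN Pool.Agent.Helper83.EIN2

theorem lenML_cd (i : Fin 6) : ContDiff ℝ 1 (fun z : (ℝ × ℝ × ℝ) × (Fin 12 → ℝ) ↦
    lenML z.1.1 z.1.2.1 z.1.2.2 z.2 i) := by
  unfold lenML
  fin_cases i <;> simp <;> fun_prop

theorem FML_cd : ContDiff ℝ 1 (fun z : (ℝ × ℝ × ℝ) × (Fin 12 → ℝ) ↦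
    FML z.1.1 z.1.2.1 z.1.2.2 z.2) := by
  have h0 := lenML_cd 0
  have h1 := lenML_cd 1
  have h2 := lenML_cd 2
  have h3 := lenML_cd 3
  have h4 := lenML_cd 4
  have h5 := lenML_cd 5
  unfold FML
  rw [contDiff_pi]
  intro i
  fin_cases i <;> simp <;> fun_prop

/-- Bounds of the lengths. -/
theorem len_bd {a β t D : ℝ} (ha : 0 < a) (ha' : a < 1) (hb : 0 < β) (hb' : β < 1) (ht : 0 < t)
    (ht' : t < 1) {p : Fin 12 → ℝ} (hp : ∀ i, |p i| ≤ D) :
    |lenML a β t p 0 - 2 * β| ≤ t * (2 + 3 * D) ∧ |lenML a β t p 1 - 1| ≤ t * (2 + 3 * D) ∧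
    |lenML a β t p 2 - β| ≤ t * (2 + 3 * D) ∧ |lenML a β t p 3 - (1 - β)| ≤ t * (2 + 3 * D) ∧
    |lenML a β t p 4 - β| ≤ t * (2 + 3 * D) ∧ |lenML a β t p 5 - (1 + β)| ≤ t * (2 + 3 * D) := by
  have hD : 0 ≤ D := (abs_nonneg _).trans (hp 0)
  -- products with coefficients in [0, 1]
  have key : ∀ (c : ℝ) (i : Fin 12), 0 ≤ c → c ≤ 1 → |t * c * p i| ≤ t * D := by
    intro c i h0 h1
    rw [abs_mul, abs_mul, abs_of_pos ht, abs_of_nonneg h0]
    have h2 : c * |p i| ≤ 1 * D := mul_le_mul h1 (hp i) (abs_nonneg _) zero_le_one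
    calc t * c * |p i| = t * (c * |p i|) := by ring
      _ ≤ t * (1 * D) := mul_le_mul_of_nonneg_left h2 ht.le
      _ = t * D := by ring
  have hg : 0 < 1 - β := by linarith
  have hs : 0 < 1 - t := by linarith
  have hA : 0 < 1 - a := by linarith
  have m1 : 0 ≤ (1 - t) * β := by positivity
  have m1' : (1 - t) * β ≤ 1 := by nlinarith
  have m2 : 0 ≤ (1 - t) * (1 - β) := by positivity
  have m2' : (1 - t) * (1 - β) ≤ 1 := by nlinarith
  have m3 : 0 ≤ t * a := by positivity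
  have m3' : t * a ≤ 1 := by nlinarith
  have m4 : 0 ≤ t * (1 - a) := by positivity
  have m4' : t * (1 - a) ≤ 1 := by nlinarith
  have n1 : t * β ≤ t := by nlinarith
  have n1' : 0 < t * β := by positivity
  have n2 : t * a ≤ t := by nlinarith
  have n2' : 0 < t * a := by positivity
  refine ⟨?_, ?_, ?_, ?_, ?_, ?_⟩
  · have k1 := abs_le.1 (key _ 6 m1 m1')
    have k2 := abs_le.1 (key _ 11 m2 m2')
    show |1 + (1 - t) * β * (1 - t * p 6) - (1 - t) * (1 - β) * (1 - t * p 11) - 2 * β| ≤ _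
    rw [abs_le]
    constructor <;> nlinarith [mul_nonneg ht.le hD]
  · have k1 := abs_le.1 (key _ 2 m3 m3')
    have k2 := abs_le.1 (key _ 3 m4 m4')
    show |1 + t * a * (1 - t * p 2) - t * (1 - a) * (1 - t * p 3) - 1| ≤ _
    rw [abs_le]
    constructor <;> nlinarith [mul_nonneg ht.le hD]
  · have k1 := abs_le.1 (key _ 7 m4 m4')
    have k2 := abs_le.1 (key _ 1 m2 m2')
    show |1 - t * (1 - a) * (1 - t * p 7) - (1 - t) * (1 - β) * (1 - t * p 1) - β| ≤ _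
    rw [abs_le]
    constructor <;> nlinarith [mul_nonneg ht.le hD]
  · have k1 := abs_le.1 (key _ 9 m4 m4')
    have k2 := abs_le.1 (key _ 0 m1 m1')
    show |1 - t * (1 - a) * (1 - t * p 9) - (1 - t) * β * (1 - t * p 0) - (1 - β)| ≤ _
    rw [abs_le]
    constructor <;> nlinarith [mul_nonneg ht.le hD]
  · have k1 := abs_le.1 (key _ 8 m3 m3')
    have k2 := abs_le.1 (key _ 5 m2 m2')
    show |1 - t * a * (1 - t * p 8) - (1 - t) * (1 - β) * (1 - t * p 5) - β| ≤ _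
    rw [abs_le]
    constructor <;> nlinarith [mul_nonneg ht.le hD]
  · have k1 := abs_le.1 (key _ 10 m3 m3')
    have k2 := abs_le.1 (key _ 4 m1 m1')
    show |1 + t * a * (1 - t * p 10) + (1 - t) * β * (1 - t * p 4) - (1 + β)| ≤ _
    rw [abs_le]
    constructor <;> nlinarith [mul_nonneg ht.le hD]

/-- The limit point of the chart `ML` is the only one with `v 2 < 1`, `v 3 < 1`, `1 ≤ v 5`. -/
theorem lim_ML {β δ : ℝ} (hδ : δ ≤ β) (hδ' : δ ≤ 1 - β) {v L : Fin 6 → ℝ}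
    (hL : L ∈ Lim β) (h : ∀ i, |v i - L i| < δ) (h2 : v 2 < 1) (h3 : v 3 < 1) (h5 : 1 ≤ v 5) :
    L = ![2 * β, 1, β, 1 - β, β, 1 + β] := by
  have q2 := abs_lt.1 (h 2)
  have q3 := abs_lt.1 (h 3)
  have q5 := abs_lt.1 (h 5)
  unfold Lim at hL
  simp only [List.mem_cons, List.not_mem_nil, or_false] at hL
  rcases hL with rfl | rfl | rfl | rfl | rfl | rfl | rfl | rfl | rfl | rfl | rfl | rfl
  all_goals try rfl
  all_goals
    exfalso
    simp at q2 q3 q5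
    linarith [q2.1, q2.2, q3.1, q3.2, q5.1, q5.2]

theorem mlc (hLIM : LIM) (hMLE : MLE) (hMLS : MLS) (hMLB : MLB) (hMLZ : MLZ) : MLC := by
  classical
  intro a₀ β₀ ha0 ha1 hb0 hb1
  obtain ⟨δ₁, hδ₁, ε₁, hε₁, C₁, hC₁⟩ := hMLB a₀ β₀ ha0 ha1 hb0 hb1
  obtain ⟨he, hz, hn, hne⟩ := hMLZ a₀ β₀ ha0 ha1 hb0 hb1
  set z₁ := zML β₀ 0 with hz₁
  set z₂ := zML β₀ (eML a₀ β₀) with hz₂
  have hg0 : 0 < 1 - β₀ := by linarith
  have hA0 : 0 < 1 - a₀ := by linarith
  obtain ⟨C, hC1, hCC, hCz1, hCz2⟩ : ∃ C : ℝ, 1 ≤ C ∧ C₁ ≤ C ∧ (∀ i, |z₁ i| ≤ C) ∧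
      ∀ i, |z₂ i| ≤ C := by
    refine ⟨1 + |C₁| + ∑ i, |z₁ i| + ∑ i, |z₂ i|, ?_, ?_, ?_, ?_⟩
    · have : 0 ≤ |C₁| + ∑ i, |z₁ i| + ∑ i, |z₂ i| := by positivity
      linarith
    · have h1 : 0 ≤ ∑ i, |z₁ i| := by positivity
      have h2 : 0 ≤ ∑ i, |z₂ i| := by positivity
      linarith [le_abs_self C₁]
    · intro i
      have h1 : |z₁ i| ≤ ∑ i, |z₁ i| :=
        Finset.single_le_sum (f := fun i ↦ |z₁ i|) (fun i _ ↦ abs_nonneg _) (mem_univ i)
      have h2 : 0 ≤ ∑ i, |z₂ i| := by positivity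
      linarith [abs_nonneg C₁]
    · intro i
      have h1 : |z₂ i| ≤ ∑ i, |z₂ i| :=
        Finset.single_le_sum (f := fun i ↦ |z₂ i|) (fun i _ ↦ abs_nonneg _) (mem_univ i)
      have h2 : 0 ≤ ∑ i, |z₁ i| := by positivity
      linarith [abs_nonneg C₁]
  set m := min β₀ (1 - β₀) with hm
  have hm0 : 0 < m := lt_min hb0 hg0
  have hm1 : m ≤ β₀ := min_le_left _ _
  have hm2 : m ≤ 1 - β₀ := min_le_right _ _
  obtain ⟨ε₂, hε₂, hlim⟩ := hLIM a₀ β₀ ha0 ha1 hb0 hb1 (min δ₁ m) (lt_min hδ₁ hm0)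
  have hcard : ({z₁, z₂} : Finset (Fin 12 → ℝ)).card = 2 := Finset.card_pair hne
  have hD0 : 0 < 2 + 3 * (C + 1) := by linarith
  set ε₀ := min (min (min ε₁ ε₂) (min a₀ (1 - a₀))) (min (m / 2) (m / (2 * (2 + 3 * (C + 1)))))
    with hε₀
  have hε₀0 : 0 < ε₀ := by
    refine lt_min (lt_min (lt_min hε₁ hε₂) (lt_min ha0 hA0)) (lt_min (by positivity) (by positivity))
  have e1 : ε₀ ≤ ε₁ := (min_le_left _ _).trans ((min_le_left _ _).trans (min_le_left _ _))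
  have e2 : ε₀ ≤ ε₂ := (min_le_left _ _).trans ((min_le_left _ _).trans (min_le_right _ _))
  have e3 : ε₀ ≤ a₀ := (min_le_left _ _).trans ((min_le_right _ _).trans (min_le_left _ _))
  have e4 : ε₀ ≤ 1 - a₀ := (min_le_left _ _).trans ((min_le_right _ _).trans (min_le_right _ _))
  have e5 : ε₀ ≤ m / 2 := (min_le_right _ _).trans (min_le_left _ _)
  have e6 : ε₀ ≤ m / (2 * (2 + 3 * (C + 1))) := (min_le_right _ _).trans (min_le_right _ _)
  have hpar : ∀ a β t, Near2 a₀ β₀ ε₀ a β t → 0 < t ∧ t < 1 ∧ 0 < β ∧ β < 1 ∧ 0 < a ∧ a < 1 ∧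
      m / 2 < β ∧ m / 2 < 1 - β ∧ t * (2 + 3 * (C + 1)) < m / 2 := by
    intro a β t hN
    have q1 := abs_lt.1 hN.ha
    have q2 := abs_lt.1 hN.hb
    have q3 := hN.t0
    have q4 := hN.t1
    have q5 : t * (2 + 3 * (C + 1)) < m / 2 := by
      have h1 : t < m / (2 * (2 + 3 * (C + 1))) := q4.trans_le e6
      rw [lt_div_iff₀ (by positivity)] at h1
      linarith
    refine ⟨q3, by linarith, by linarith [q2.1], by linarith [q2.2], by linarith [q1.1],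
      by linarith [q1.2], by linarith [q2.1], by linarith [q2.2], q5⟩
  suffices hcount : ∃ ε > 0, ∀ a β t, Near2 a₀ β₀ ε a β t →
      {p | Sol2 a β t (lenML a β t p) ∧ lenML a β t p 2 < 1 ∧ lenML a β t p 3 < 1 ∧
        1 ≤ lenML a β t p 5 ∧ parML t (lenML a β t p) = p}.ncard =
          ({z₁, z₂} : Finset (Fin 12 → ℝ)).card by
    obtain ⟨ε, hε, hcount⟩ := hcount
    refine ⟨min ε ε₀, lt_min hε hε₀0, fun a β t hN ↦ ?_⟩
    obtain ⟨p1, p2, p3, p4, -⟩ := hpar a β t (hN.mono (min_le_right _ _))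
    have h1 : {v : Fin 6 → ℝ | Sol2 a β t v ∧ v 2 < 1 ∧ v 3 < 1 ∧ 1 ≤ v 5} =
        lenML a β t '' {p | Sol2 a β t (lenML a β t p) ∧ lenML a β t p 2 < 1 ∧
          lenML a β t p 3 < 1 ∧ 1 ≤ lenML a β t p 5 ∧ parML t (lenML a β t p) = p} := by
      ext v
      constructor
      · rintro ⟨hv, hv2, hv3, hv5⟩
        obtain ⟨r1, r2⟩ := hMLE a β t v p1 p2 p3 p4 hv
        refine ⟨parML t v, ?_, r1⟩
        show Sol2 a β t (lenML a β t (parML t v)) ∧ lenML a β t (parML t v) 2 < 1 ∧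
          lenML a β t (parML t v) 3 < 1 ∧ 1 ≤ lenML a β t (parML t v) 5 ∧
            parML t (lenML a β t (parML t v)) = parML t v
        rw [r1]
        exact ⟨hv, hv2, hv3, hv5, rfl⟩
      · rintro ⟨p, ⟨r1, r2, r3, r4, r5⟩, rfl⟩
        exact ⟨r1, r2, r3, r4⟩
    rw [h1, Set.InjOn.ncard_image, hcount a β t (hN.mono (min_le_left _ _)), hcard]
    intro p hp q hq hpq
    rw [← hp.2.2.2.2, ← hq.2.2.2.2, hpq]
  refine count_set2 FML FML_cd a₀ β₀ (Set.Icc (fun _ ↦ -C) (fun _ ↦ C)) isCompact_Icc {z₁, z₂}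
    ?_ ?_ ?_ (Set.pi Set.univ fun _ ↦ Set.Ioo (-(C + 1)) (C + 1)) ?_
    (fun a β t ↦ {p | Sol2 a β t (lenML a β t p) ∧ lenML a β t p 2 < 1 ∧ lenML a β t p 3 < 1 ∧
        1 ≤ lenML a β t p 5 ∧ parML t (lenML a β t p) = p}) ε₀ hε₀0 ?_ ?_
  · intro u _ h0
    rw [mem_insert, mem_singleton]
    exact (hz u).1 h0
  · intro z hzz
    rw [mem_insert, mem_singleton] at hzz
    exact (hz z).2 hzz
  · intro z hzz v hv
    rw [mem_insert, mem_singleton] at hzz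
    rcases hzz with rfl | rfl
    · exact hn 0 (Or.inl rfl) v hv
    · exact hn (eML a₀ β₀) (Or.inr rfl) v hv
  · intro z hzz
    refine (isOpen_set_pi Set.finite_univ fun i _ ↦ isOpen_Ioo).mem_nhds ?_
    intro i _
    rw [mem_insert, mem_singleton] at hzz
    rcases hzz with rfl | rfl
    · have := abs_le.1 (hCz1 i)
      exact ⟨by linarith [this.1], by linarith [this.2]⟩
    · have := abs_le.1 (hCz2 i)
      exact ⟨by linarith [this.1], by linarith [this.2]⟩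
  · rintro a β t hN p ⟨r1, r2, r3, r4, r5⟩
    obtain ⟨p1, p2, p3, p4, -⟩ := hpar a β t hN
    obtain ⟨L, hL, hLv⟩ := hlim a β t _ (hN.mono e2) r1
    have hLe := lim_ML ((min_le_right _ _).trans hm1) ((min_le_right _ _).trans hm2) hL hLv r2 r3 r4
    subst hLe
    have hb := hC₁ a β t _ (hN.mono e1) r1 (fun i ↦ (hLv i).trans_le (min_le_left _ _))
    have hF := (hMLE a β t _ p1 p2 p3 p4 r1).2
    rw [r5] at hb hF
    refine ⟨⟨fun i ↦ ?_, fun i ↦ ?_⟩, hF⟩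
    · have := abs_le.1 (hb i)
      show -C ≤ p i
      linarith [this.1]
    · have := abs_le.1 (hb i)
      show p i ≤ C
      linarith [this.2]
  · intro a β t hN p hp hF
    obtain ⟨p1, p2, p3, p4, p5, p6, p7, p8, p9⟩ := hpar a β t hN
    have hp' : ∀ i, |p i| ≤ C + 1 := by
      intro i
      have h := hp i trivial
      exact abs_le.2 ⟨h.1.le, h.2.le⟩
    obtain ⟨l0, l1, l2, l3, l4, l5⟩ := len_bd p5 p6 p3 p4 p1 p2 hp'
    have l0 := abs_le.1 l0
    have l1 := abs_le.1 l1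
    have l2 := abs_le.1 l2
    have l3 := abs_le.1 l3
    have l4 := abs_le.1 l4
    have l5 := abs_le.1 l5
    have hpos : ∀ i, 0 < lenML a β t p i := by
      intro i
      fin_cases i
      · show 0 < lenML a β t p 0
        linarith [l0.1]
      · show 0 < lenML a β t p 1
        linarith [l1.1]
      · show 0 < lenML a β t p 2
        linarith [l2.1]
      · show 0 < lenML a β t p 3
        linarith [l3.1]
      · show 0 < lenML a β t p 4
        linarith [l4.1]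
      · show 0 < lenML a β t p 5
        linarith [l5.1]
    obtain ⟨s1, s2⟩ := hMLS a β t p p1 p2 p3 p4 hpos hF
    exact ⟨s1, by linarith [l2.2], by linarith [l3.2], by linarith [l5.1], s2⟩

end Pool.Agent.Helper30.EIN2
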